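import Pool.Agent.Lib.MP_1a91b9_nuT.BaseK

/-!
# Loc: the points over a larger field
-/

set_option autoImplicit false

namespace Pool.Agent.Lib.MP_1a91b9_nuT.TW

open WeierstrassCurve

/-- The points over a larger field. -/
noncomputable def locMap {N F' : Type*} [Field N] [Field F'] (f : N →+* F')
    (W : WeierstrassCurve N) : W.toAffine.Point → (W.map f).toAffine.Point
  | .zero => .zero
  | .some X Y h => .some (f X) (f Y) ((Affine.map_nonsingular W.toAffine f.injective X Y).2 h)

theorem locMap_injective {N F' : Type*} [Field N] [Field F'] (f : N →+* F')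
    (W : WeierstrassCurve N) : Function.Injective (locMap f W) := by
  rintro (_ | ⟨x₁, y₁, h₁⟩) (_ | ⟨x₂, y₂, h₂⟩) h
  · rfl
  · exact absurd h (by simp [locMap])
  · exact absurd h (by simp [locMap])
  · simp only [locMap, Affine.Point.some.injEq] at h
    obtain ⟨hx, hy⟩ := h
    have hx' := f.injective hx
    have hy' := f.injective hy
    subst hx'
    subst hy'
    rfl

end Pool.Agent.Lib.MP_1a91b9_nuT.TW
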