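import Pool.Agent.Lib.MP_1a91b9_nuT.BaseK

/-!
# The quadratic extension generated by a square root of the discriminant of `K`
-/

set_option autoImplicit false

namespace Pool.Agent.Lib.MP_1a91b9_nuT.TW

universe u

section
variable {D : ℤ}

/-- the intermediate field of the `a + b y`, where `y ^ 2 = D` -/
def quadIF (N F : Type*) [Field N] [Field F] [CharZero F] [Algebra N F] (y : F)
    (hy : y ^ 2 = (D : F)) : IntermediateField N F where
  carrier := {z | ∃ a b : N, z = algebraMap N F a + algebraMap N F b * y}
  mul_mem' := by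
    rintro _ _ ⟨a, b, rfl⟩ ⟨c, d, rfl⟩
    refine ⟨a * c + D * (b * d), a * d + b * c, ?_⟩
    simp only [map_add, map_mul, map_intCast]
    linear_combination (algebraMap N F b * algebraMap N F d) * hy
  add_mem' := by
    rintro _ _ ⟨a, b, rfl⟩ ⟨c, d, rfl⟩
    refine ⟨a + c, b + d, ?_⟩
    simp only [map_add]
    ring
  algebraMap_mem' := fun r => ⟨r, 0, by simp⟩
  inv_mem' := by
    rintro _ ⟨a, b, rfl⟩
    by_cases h : a ^ 2 - D * b ^ 2 = 0
    · have h1 : (algebraMap N F a + algebraMap N F b * y) *
          (algebraMap N F a - algebraMap N F b * y) = 0 := by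
        have h2 := congrArg (algebraMap N F) h
        simp only [map_sub, map_mul, map_pow, map_intCast, map_zero] at h2
        linear_combination h2 - (algebraMap N F b) ^ 2 * hy
      rcases mul_eq_zero.1 h1 with h3 | h3
      · refine ⟨0, 0, ?_⟩
        rw [h3]; simp
      · refine ⟨(2 * a)⁻¹, 0, ?_⟩
        rw [map_inv₀, map_mul, map_ofNat, map_zero, zero_mul, add_zero]
        congr 1
        linear_combination -h3
    · refine ⟨a / (a ^ 2 - D * b ^ 2), - b / (a ^ 2 - D * b ^ 2), ?_⟩
      have h2 : algebraMap N F (a ^ 2 - D * b ^ 2) ≠ 0 := by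
        rw [Ne, map_eq_zero]; exact h
      have h3 : algebraMap N F (a ^ 2 - D * b ^ 2) =
          algebraMap N F a ^ 2 - D * algebraMap N F b ^ 2 := by
        simp only [map_sub, map_mul, map_pow, map_intCast]
      apply inv_eq_of_mul_eq_one_right
      rw [map_div₀, map_div₀, map_neg]
      have h4 : (algebraMap N F a + algebraMap N F b * y) *
          (algebraMap N F a / algebraMap N F (a ^ 2 - D * b ^ 2) +
            -algebraMap N F b / algebraMap N F (a ^ 2 - D * b ^ 2) * y) =
          ((algebraMap N F a + algebraMap N F b * y) *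
          (algebraMap N F a - algebraMap N F b * y)) / algebraMap N F (a ^ 2 - D * b ^ 2) := by
        ring
      rw [h4, div_eq_one_iff_eq h2, h3]
      linear_combination -(algebraMap N F b) ^ 2 * hy

theorem mem_quadIF {N F : Type*} [Field N] [Field F] [CharZero F] [Algebra N F] (y : F)
    (hy : y ^ 2 = (D : F)) (z : F) :
    z ∈ quadIF N F y hy ↔ ∃ a b : N, z = algebraMap N F a + algebraMap N F b * y := Iff.rfl

end

variable [CD]

/-- the discriminant of `K` -/
def dK : ℤ := CD.tr ^ 2 - 4 * CD.nm

theorem om_of_sqrt {F : Type*} [Field F] [Algebra K F] (x : F) (hx : x = algebraMap K F om) :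
    (2 * x - (CD.tr : F)) ^ 2 = (dK : F) := by
  have h1 := congrArg (algebraMap K F) om_quad
  rw [map_pow, map_sub, map_mul, map_intCast, map_intCast] at h1
  rw [hx, dK]
  push_cast
  linear_combination 4 * h1

end Pool.Agent.Lib.MP_1a91b9_nuT.TW
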