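import Pool.Agent.Lib.MP_1a91b9_nuT.BaseK
import Pool.Agent.Lib.MP_1a91b9_nuT.S4.Place
import Pool.Agent.Lib.MP_1a91b9_nuT.S4.Bad

/-!
# Stream TW: quadratic twists `y² = x³ + 16 d³` of `y² + y = x³`
-/

set_option autoImplicit false

namespace Pool.Agent.Lib.MP_1a91b9_nuT.TW

variable [CD]

open WeierstrassCurve IsDedekindDomain NumberField Pool.Agent.Lib.MP_1a91b9_nt
open Pool.Agent.Lib.MP_1a91b9_nuT.S4

/-- The quadratic twist `y² = x³ + 16 d³` of `y² + y = x³` by `d`. -/
def tw {R : Type*} [CommRing R] (d : R) : WeierstrassCurve R := ⟨0, 0, 0, 0, 16 * d ^ 3⟩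


section
variable {R : Type*} [CommRing R]


end

section
variable {k : Type*} [Field k]


end


end Pool.Agent.Lib.MP_1a91b9_nuT.TW
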